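import Pool.Agent.H735K.ThmK

/-!
# A theorem of Barban, Davenport and Halberstam for prime tuples, for almost all vectors of shifts

For all but `N ^ k / (log N) ^ A` of the vectors `h` of `k` shifts in `[1, N]` the primes `p` for which all the
`p + h i` are primes are equidistributed in the residue classes `r (mod q)` with `r (r + h 1) ... (r + h k)` coprime
to `q`, in mean square over all such classes to all moduli `q ≤ N exp (-B (log log N) ^ 2)`, the maximum over the
length of the interval being taken in every class separately.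
-/

set_option autoImplicit false

namespace Pool.Agent.Results.MP_68a45e_nt.BarbanDavenportHalberstam

open Finset

/-- The polynomial `x (x + h 1) ... (x + h k)`. -/
def form {k : ℕ} (h : Fin k → ℕ) (x : ℕ) : ℕ := x * ∏ i, (x + h i)

/-- The number of the residues `r (mod p)` with `p ∣ r (r + h 1) ... (r + h k)`, that is the number of the residue
classes modulo `p` occupied by `0, -h 1, ..., -h k` (the number `w(p)` of the problem). -/
def nu {k : ℕ} (h : Fin k → ℕ) (p : ℕ) : ℕ := ((range p).filter (fun r => p ∣ form h r)).card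

/-- The product of `(1 - ν(p) / p) / (1 - 1 / p) ^ (k + 1)` over the primes `p ≤ z`. -/
noncomputable def partialSing {k : ℕ} (h : Fin k → ℕ) (z : ℕ) : ℝ :=
  ∏ p ∈ (Icc 1 z).filter Nat.Prime, (1 - (nu h p : ℝ) / p) / (1 - 1 / (p : ℝ)) ^ (k + 1)

/-- The residues `r (mod q)` with `r (r + h 1) ... (r + h k)` coprime to `q`. -/
def residues {k : ℕ} (h : Fin k → ℕ) (q : ℕ) : Finset ℕ := (range q).filter (fun r => (form h r).Coprime q)

open Classical in
/-- The sum of `log p * log (p + h 1) * ... * log (p + h k)` over the primes `p ≤ y`, `p ≡ r (mod q)`, for which all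
the `p + h i` are primes. -/
noncomputable def theta {k : ℕ} (h : Fin k → ℕ) (q r y : ℕ) : ℝ :=
  ∑ p ∈ (Icc 1 y).filter (fun p => p ≡ r [MOD q] ∧ p.Prime ∧ ∀ i, (p + h i).Prime),
    Real.log p * ∏ i, Real.log ((p + h i : ℕ) : ℝ)

/-- The singular series converges to a number `S` (which, if no prime divides all the values of the polynomial, is at
least `c`) and, for all `Q ≤ N exp (-B (log log N) ^ 2)` and all choices of the lengths `y(q, r) ≤ N`, the sum over all
`q ≤ Q` and all the classes `r (mod q)` with `r (r + h 1) ... (r + h k)` coprime to `q` of the squares of the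
differences `theta - S y / φ` is at most `N ^ 2 / (log N) ^ A`; here `φ = φ_h(q)` is the number of these classes. -/
def Good {k : ℕ} (A B : ℕ) (c : ℝ) (N : ℕ) (h : Fin k → ℕ) : Prop :=
  ∃ S : ℝ, Filter.Tendsto (partialSing h) Filter.atTop (nhds S) ∧
    ((∀ p : ℕ, p.Prime → nu h p < p) → c ≤ S) ∧
    ∀ Q : ℕ, (Q : ℝ) ≤ N * Real.exp (-(B * Real.log (Real.log N) ^ 2)) →
      ∀ y : ℕ → ℕ → ℕ, (∀ q r, y q r ≤ N) →
        ∑ q ∈ Icc 1 Q, ∑ r ∈ residues h q,
          (theta h q r (y q r) - S * y q r / (residues h q).card) ^ 2 ≤ (N : ℝ) ^ 2 / Real.log N ^ A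

open Pool.Agent.H735K
open Pool.Agent.H373R2.T7 (singZ nuP lamP singZ_low Admissible)

lemma form_cast {k : ℕ} (h : Fin k → ℕ) (x : ℕ) : ((form h x : ℕ) : ℤ) = Fa (fun i => (1 : ℤ) * (h i : ℤ)) x := by
  unfold form Fa
  push_cast
  simp only [one_mul]

lemma nu_eq {k : ℕ} (h : Fin k → ℕ) (p : ℕ) (hp : p.Prime) : nu h p = nuP (fun i => (1 : ℤ) * (h i : ℤ)) p := by
  rw [← rho_Fa _ p hp]
  unfold nu rho
  apply congrArg
  apply filter_congr
  intro r _
  rw [← form_cast, Int.natCast_dvd_natCast]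

lemma sing_eq {k : ℕ} (h : Fin k → ℕ) (z : ℕ) : partialSing h z = singZ (fun i => (1 : ℤ) * (h i : ℤ)) z := by
  unfold partialSing singZ
  refine prod_congr rfl fun p hp => ?_
  rw [nu_eq h p (mem_filter.1 hp).2]

lemma residues_eq {k : ℕ} (h : Fin k → ℕ) (q : ℕ) : residues h q = redF (Fa (fun i => (1 : ℤ) * (h i : ℤ))) q := by
  unfold residues redF
  apply filter_congr
  intro r _
  rw [← form_cast, Int.gcd_natCast_natCast]

lemma card_eq {k : ℕ} (h : Fin k → ℕ) (q : ℕ) : (residues h q).card = phF (Fa (fun i => (1 : ℤ) * (h i : ℤ))) q := by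
  rw [residues_eq]
  rfl

lemma theta_eq {k : ℕ} (h : Fin k → ℕ) (q r y : ℕ) : theta h q r y = thT (fun _ => (1 : ℤ)) (fun i => (h i : ℤ)) y q r := by
  classical
  unfold theta thT tP
  rw [← filter_filter, sum_filter]
  refine sum_congr rfl fun m _ => ?_
  have e1 : ∀ i, ((1 : ℤ) * (m : ℤ) + (h i : ℤ)).toNat = m + h i := by
    intro i
    omega
  unfold lamP
  by_cases h1 : m.Prime ∧ ∀ i, (m + h i).Prime
  · rw [if_pos h1, Int.toNat_natCast, if_pos h1.1]
    congr 1
    refine prod_congr rfl fun i _ => ?_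
    rw [e1, if_pos (h1.2 i)]
  · rw [if_neg h1]
    symm
    rw [not_and_or] at h1
    rcases h1 with h1 | h1
    · rw [Int.toNat_natCast, if_neg h1, zero_mul]
    · push Not at h1
      obtain ⟨i, hi⟩ := h1
      rw [prod_eq_zero (mem_univ i), mul_zero]
      rw [e1, if_neg hi]

lemma adm_eq {k : ℕ} (h : Fin k → ℕ) (hh : ∀ p : ℕ, p.Prime → nu h p < p) : Admissible (fun i => (1 : ℤ) * (h i : ℤ)) := by
  intro p hp
  have h1 := hh p hp
  unfold nu at h1
  have h2 : ∃ r ∈ range p, r ∉ (range p).filter (fun r => p ∣ form h r) := by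
    by_contra hc
    push Not at hc
    have h3 : range p ⊆ (range p).filter (fun r => p ∣ form h r) := fun r hr => hc r hr
    have h4 := card_le_card h3
    rw [card_range] at h4
    omega
  obtain ⟨r, hr, hr2⟩ := h2
  have h3 : ¬ p ∣ form h r := fun h4 => hr2 (mem_filter.2 ⟨hr, h4⟩)
  have h4 : ¬ (p : ℤ) ∣ Fa (fun i => (1 : ℤ) * (h i : ℤ)) r := by
    rw [← form_cast, Int.natCast_dvd_natCast]
    exact h3
  rw [Fa_dvd _ p hp] at h4
  push Not at h4
  exact ⟨r, h4.1, h4.2⟩

open Classical in
/-- For every `k` there is a constant `c > 0` such that for all `A` there are `B` and `N₀` such that for all `N ≥ N₀`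
all but `N ^ k / (log N) ^ A` of the vectors `h` of `k` integers in `[1, N]` are `Good`. -/
theorem result (k : ℕ) : ∃ c : ℝ, 0 < c ∧ ∀ A : ℕ, ∃ B N₀ : ℕ, ∀ N : ℕ, N₀ ≤ N →
    (((Fintype.piFinset (fun _ : Fin k => Icc 1 N)).filter (fun h => ¬ Good A B c N h)).card : ℝ) ≤
      (N : ℝ) ^ k / Real.log N ^ A := by
  obtain ⟨c, hc, hlow⟩ := singZ_low k
  refine ⟨c, hc, fun A => ?_⟩
  obtain ⟨B, N0, hN0⟩ := thmK k A
  refine ⟨B, N0, fun N hN => ?_⟩
  refine le_trans ?_ (hN0 N hN (fun _ => 1) (fun _ => Or.inl rfl))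
  have hsub : (Fintype.piFinset (fun _ : Fin k => Icc 1 N)).filter (fun h => ¬ Good A B c N h) ⊆
      (Fintype.piFinset (fun _ : Fin k => Icc 1 N)).filter (fun h => ¬ GoodT A B N (fun _ => 1) h) := by
    intro h hh
    rw [mem_filter] at hh ⊢
    refine ⟨hh.1, fun hg => hh.2 ?_⟩
    obtain ⟨S, hS, hall⟩ := hg
    have hS' : Filter.Tendsto (partialSing h) Filter.atTop (nhds S) := by
      refine hS.congr fun z => ?_
      rw [sing_eq]
    refine ⟨S, hS', fun hadm => ?_, fun Q hQ y hy => ?_⟩
    · apply ge_of_tendsto hS'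
      filter_upwards with z
      rw [sing_eq]
      exact hlow _ (adm_eq h hadm) z
    · have hb := Fintype.mem_piFinset.1 hh.1
      have h1 := hall N le_rfl (fun i m hm => by
        have := mem_Icc.1 hm
        change (1 : ℤ) ≤ 1 * (m : ℤ) + (h i : ℤ)
        omega) Q hQ y hy
      refine le_trans (le_of_eq ?_) h1
      refine sum_congr rfl fun q _ => ?_
      rw [card_eq, residues_eq]
      refine sum_congr rfl fun r _ => ?_
      rw [theta_eq]
      ring
  exact_mod_cast card_le_card hsub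

end Pool.Agent.Results.MP_68a45e_nt.BarbanDavenportHalberstam
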