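import Pool.Agent.Helper269.Uni
import Pool.Agent.Helper269.SBa
import Pool.Agent.W182.PW.Lin

/-!
# Common patterns of prime `s`-tuples for almost all tuples of short boxes

For a tuple `a = (a_1, ..., a_s)` let `P(a, N)` be the set of the `n ∈ (N ^ (1/4), N]` with all `n + a_i` prime, and write
`E(a, N) = N ∏ (1 - w(q) / q)` (product over the primes `q ≤ N`), where `w(q)` is the number of the residue classes modulo
`q` occupied by the `a_i`; the tuple is admissible if `w(q) < q` for all primes `q`. Let `δ₀` be a suitable positive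
constant, which depends only on `s`, and call `a` good for `N` if `P(a, N)` has at least `δ₀ E(a, N)` elements.
(1) If `N ^ (1 / 3 + ε) ≤ H ≤ N` and `b_i ≤ C N`, then all but at most `H ^ s / (log N) ^ U` of the admissible tuples `a` of
the box `b_i < a_i ≤ b_i + H` are good for `N`, for `N ≥ N₀(ε, U, C)`.
(2) Arbitrary subsets `S_j` of the relative density `δ` of the sets `P(a^j, N)`, for arbitrary admissible tuples
`a^1, ..., a^M` which are good for `N`, have common difference vectors: for a positive proportion of the vectors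
`h ∈ {1, ..., D} ^ m` the set `S_j` contains for every `P ⊆ {0, ..., k - 1} ^ m` with `0 ∈ P` the number of patterns
`n + f · h`, `f ∈ P`, which is predicted for `a^j`, for all `j` at once, where `D` is arbitrary with
`(log N) ^ B ≤ D ≤ N`. For `m = 1`: for a positive proportion of the integers `d ≤ D` there are, for all `j` at once, as
many progressions `n, n + d, ..., n + (k - 1) d ≤ N` as predicted, all whose terms `t` have all the `t + a^j_i` prime.

The proof combines the lower bound for almost all tuples of short boxes (`Pool.Agent.helper24_UT`, the hand-in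
`MP_e87c7d_nt.ShortWindowsOfShifts` of this team; here `Pool.Agent.Helper269.SB24`) with the theorem of
`Pool.Agent.X26.MC` (starting library) on common patterns in sets of integers without small prime factors.
-/

set_option autoImplicit false

namespace Pool.Agent.Results.MP_68a45e_nt.PatternsShortBoxes

open Filter

/-- The number of the residue classes modulo `q` occupied by the `a i`. -/
def classes {s : ℕ} (a : Fin s → ℕ) (q : ℕ) : ℕ := (Finset.univ.image (fun i => a i % q)).card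

/-- The `a i` do not occupy all the classes of any prime modulus. -/
def Admissible {s : ℕ} (a : Fin s → ℕ) : Prop := ∀ q : ℕ, q.Prime → classes a q < q

/-- The `n ∈ (N ^ (1 / 4), N]` for which all the `n + a i` are primes. -/
def Primes {s : ℕ} (a : Fin s → ℕ) (N : ℕ) : Set ℕ := {n | (N : ℝ) ^ (1 / 4 : ℝ) < n ∧ n ≤ N ∧ ∀ i, (n + a i).Prime}

/-- The integer `f · h = f 0 * h 0 + f 1 * h 1 + ...`. -/
def dot {m : ℕ} (f h : Fin m → ℕ) : ℕ := ∑ i, f i * h i

/-- The number of the residues `u` modulo `q` such that `q` divides some `u + f · h + a i`, `f ∈ P`. -/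
noncomputable def omega {s : ℕ} (a : Fin s → ℕ) {m : ℕ} (h : Fin m → ℕ) (P : Finset (Fin m → ℕ)) (q : ℕ) : ℕ :=
  {u : ℕ | 1 ≤ u ∧ u ≤ q ∧ ∃ f ∈ P, ∃ i, q ∣ u + dot f h + a i}.ncard

/-- `K` times the product of the `1 - w q / q` over the primes `q ≤ K`. -/
noncomputable def expected (w : ℕ → ℕ) (K : ℕ) : ℝ :=
  K * ∏ q ∈ (Finset.Icc 1 K).filter Nat.Prime, (1 - (w q : ℝ) / q)

/-- The set `Primes a N` has at least `δ₀` times the expected number of elements. -/
def Good {s : ℕ} (δ₀ : ℝ) (N : ℕ) (a : Fin s → ℕ) : Prop := δ₀ * expected (classes a) N ≤ ((Primes a N).ncard : ℝ)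

/-- The number of the `n ∈ S` such that all the `n + f · h`, `f ∈ P`, are in `S`. -/
noncomputable def count (S : Set ℕ) {m : ℕ} (h : Fin m → ℕ) (P : Finset (Fin m → ℕ)) : ℕ :=
  {n : ℕ | n ∈ S ∧ ∀ f ∈ P, n + dot f h ∈ S}.ncard

/-- For all `P ⊆ {0, ..., k - 1} ^ m` with `0 ∈ P`: the integers `f · h`, `f ∈ P`, are different, and for all `j`
the conditions modulo the primes are solvable and the set `S j` contains at least `c` times the expected number of
the patterns `n + f · h`, `f ∈ P`. -/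
def Common {s M m : ℕ} (a : Fin M → Fin s → ℕ) (c : ℝ) (k K : ℕ) (S : Fin M → Set ℕ) (h : Fin m → ℕ) : Prop :=
  ∀ P : Finset (Fin m → ℕ), (∀ f ∈ P, ∀ i, f i < k) → (fun _ => 0) ∈ P →
    Set.InjOn (fun f => dot f h) (P : Set (Fin m → ℕ)) ∧
      ∀ j, (∀ q : ℕ, q.Prime → omega (a j) h P q < q) ∧
        c * expected (omega (a j) h P) K ≤ (count (S j) h P : ℝ)

/-- the polynomials -/
noncomputable def F {s : ℕ} (a : Fin s → ℕ) (i : Fin s) : Polynomial ℤ := Pool.Agent.W182.PW.lin 1 (a i : ℤ)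

/-- the relation -/
def R {s : ℕ} (a : Fin s → ℕ) (q n : ℕ) : Prop := ∃ i, q ∣ n + a i

theorem F_eval {s : ℕ} (a : Fin s → ℕ) (i : Fin s) (n : ℕ) : (F a i).eval (n : ℤ) = ((n + a i : ℕ) : ℤ) := by
  unfold F
  rw [Pool.Agent.W182.PW.lin_eval]
  push_cast
  ring

theorem prod_eval {s : ℕ} (a : Fin s → ℕ) (n : ℕ) : (∏ i, F a i).eval (n : ℤ) = ((∏ i, (n + a i) : ℕ) : ℤ) := by
  rw [Polynomial.eval_prod, Nat.cast_prod]
  exact Finset.prod_congr rfl fun i _ => F_eval a i n

theorem hR {s : ℕ} (a : Fin s → ℕ) : ∀ q n : ℕ, 1 ≤ n → (R a q n ↔ ∃ i, (q : ℤ) ∣ (F a i).eval (n : ℤ)) := by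
  intro q n _
  unfold R
  apply exists_congr
  intro i
  rw [F_eval, Int.natCast_dvd_natCast]

theorem deg {s : ℕ} (a : Fin s → ℕ) : (∏ i, F a i).natDegree ≤ s := by
  refine (Polynomial.natDegree_prod_le _ _).trans ?_
  refine (Finset.sum_le_sum (g := fun _ => 1) fun i _ => ?_).trans (by simp)
  unfold F Pool.Agent.W182.PW.lin
  exact Polynomial.natDegree_linear_le

theorem nf {s : ℕ} (a : Fin s → ℕ) (ha : ∀ q : ℕ, q.Prime → ∃ n : ℕ, ∀ i, ¬ q ∣ n + a i) :
    Pool.Agent.X26.GP.NF (∏ i, F a i) := by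
  intro q hq
  obtain ⟨n, hn⟩ := ha q hq
  refine ⟨n, fun h => ?_⟩
  rw [prod_eval] at h
  have h1 : q ∣ ∏ i, (n + a i) := by exact_mod_cast h
  obtain ⟨i, -, hi⟩ := (Prime.dvd_finsetProd_iff hq.prime _).1 h1
  exact hn i hi

theorem nu_eq {s : ℕ} (a : Fin s → ℕ) (q : ℕ) (hq : q.Prime) :
    Pool.Agent.Helper269.nuR (R a) q = classes a q := by
  unfold Pool.Agent.Helper269.nuR classes R
  have hq0 := hq.pos
  have e : {u : ℕ | 1 ≤ u ∧ u ≤ q ∧ ∃ i, q ∣ u + a i} =
      (((Finset.univ.image (fun i => a i % q)).image (fun x => q - x) : Finset ℕ) : Set ℕ) := by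
    ext u
    simp only [Set.mem_ofPred_eq, Finset.coe_image, Finset.coe_univ, Set.image_univ, Set.mem_image, Set.mem_range,
      exists_exists_eq_and]
    constructor
    · rintro ⟨h1, h2, i, hi⟩
      refine ⟨i, ?_⟩
      have h3 : a i % q < q := Nat.mod_lt _ hq0
      have h4 : q ∣ u + a i % q := by
        have h5 : q ∣ (u + a i % q) + q * (a i / q) := by
          rw [add_assoc, Nat.mod_add_div]
          exact hi
        exact (Nat.dvd_add_left (dvd_mul_right q _)).1 h5
      obtain ⟨t, ht⟩ := h4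
      have h6 : t = 1 := by
        rcases Nat.lt_or_ge t 2 with h7 | h7
        · rcases Nat.eq_zero_or_pos t with h8 | h8
          · rw [h8] at ht
            omega
          · omega
        · have : q * 2 ≤ q * t := Nat.mul_le_mul_left q h7
          omega
      rw [h6] at ht
      omega
    · rintro ⟨i, hi⟩
      have h3 : a i % q < q := Nat.mod_lt _ hq0
      refine ⟨by omega, by omega, i, ?_⟩
      have h4 : u + a i = q + q * (a i / q) := by
        have := Nat.mod_add_div (a i) q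
        omega
      rw [h4]
      exact (dvd_refl q).add (dvd_mul_right q _)
  rw [e, Set.ncard_coe_finset, Finset.card_image_of_injOn]
  intro x hx y hy hxy
  have hx1 : x < q := by
    obtain ⟨i, -, hi⟩ := Finset.mem_image.1 (Finset.mem_coe.1 hx)
    rw [← hi]
    exact Nat.mod_lt _ hq0
  have hy1 : y < q := by
    obtain ⟨i, -, hi⟩ := Finset.mem_image.1 (Finset.mem_coe.1 hy)
    rw [← hi]
    exact Nat.mod_lt _ hq0
  have hxy' : q - x = q - y := hxy
  omega

theorem expected_eq {s : ℕ} (a : Fin s → ℕ) (X : ℕ) :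
    expected (classes a) X = X * Pool.Agent.X69.Ric.prR (Pool.Agent.Helper269.nuR (R a)) X := by
  unfold expected Pool.Agent.X69.Ric.prR
  congr 1
  apply Finset.prod_congr rfl
  intro q hq
  rw [nu_eq a q (Finset.mem_filter.1 hq).2]

theorem adm {s : ℕ} (a : Fin s → ℕ) (ha : Admissible a) : ∀ q : ℕ, q.Prime → ∃ n : ℕ, ∀ i, ¬ q ∣ n + a i := by
  intro q hq
  by_contra hcon
  push Not at hcon
  have h1 := ha q hq
  rw [← nu_eq a q hq] at h1
  have h2 : Pool.Agent.Helper269.nuR (R a) q = q := by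
    unfold Pool.Agent.Helper269.nuR R
    have e : {u : ℕ | 1 ≤ u ∧ u ≤ q ∧ ∃ i, q ∣ u + a i} = ((Finset.Icc 1 q : Finset ℕ) : Set ℕ) := by
      ext u
      rw [Finset.mem_coe, Finset.mem_Icc]
      exact ⟨fun h => ⟨h.1, h.2.1⟩, fun h => ⟨h.1, h.2, hcon u⟩⟩
    rw [e, Set.ncard_coe_finset, Nat.card_Icc, Nat.add_sub_cancel]
  omega

/-- **Common patterns for almost all tuples of short boxes.** -/
theorem result (s : ℕ) (hs : 1 ≤ s) : ∃ δ₀ : ℝ, 0 < δ₀ ∧
    (∀ (ε : ℝ) (U C : ℕ), 0 < ε → ∃ N₀ : ℕ, ∀ N H : ℕ, N₀ ≤ N → (N : ℝ) ^ (1 / 3 + ε) ≤ H → H ≤ N →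
      ∀ b : Fin s → ℕ, (∀ i, b i ≤ C * N) →
      ({a : Fin s → ℕ | (∀ i, b i < a i ∧ a i ≤ b i + H) ∧ Admissible a ∧ ¬ Good δ₀ N a}.ncard : ℝ) ≤
        (H : ℝ) ^ s / Real.log N ^ U) ∧
    ∀ (M m k : ℕ) (δ : ℝ), 0 < δ → ∃ c : ℝ, 0 < c ∧ ∃ B N₀ : ℕ, ∀ N D : ℕ, N₀ ≤ N → Real.log N ^ B ≤ D → D ≤ N →
      ∀ a : Fin M → Fin s → ℕ, (∀ j, Admissible (a j) ∧ Good δ₀ N (a j)) →
        ∀ S : Fin M → Set ℕ, (∀ j, S j ⊆ Primes (a j) N) →
          (∀ j, δ * ((Primes (a j) N).ncard : ℝ) ≤ ((S j).ncard : ℝ)) →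
          c * (D : ℝ) ^ m ≤ ({h : Fin m → ℕ | (∀ i, 1 ≤ h i ∧ h i ≤ D) ∧ Common a c k N S h}.ncard : ℝ) := by
  classical
  obtain ⟨c, hc, hres⟩ := Pool.Agent.Helper269.SB24.result s hs
  obtain ⟨δ₀, hδ₀, hbox⟩ := Pool.Agent.Helper269.SB.box_low s c hc
  refine ⟨δ₀, hδ₀, fun ε U C hε => ?_, fun M m k δ hδ => ?_⟩
  · obtain ⟨B, X₀, h1⟩ := hres ε (U + 2 * (s + 1)) C hε
    obtain ⟨X₁, h2⟩ := hbox U B C
    refine ⟨max (max X₀ X₁) 3, fun N H hN hH hHN b hb => ?_⟩
    have hN3 : 3 ≤ N := (le_max_right _ _).trans hN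
    have h3 := h1 N (((le_max_left _ _).trans (le_max_left _ _)).trans hN) H hH hHN b hb
    have hl1 : 1 ≤ Real.log N := by
      rw [← Real.log_exp 1]
      apply Real.log_le_log (Real.exp_pos 1)
      have h4 := Real.exp_one_lt_d9
      have h5 : (3 : ℝ) ≤ N := by exact_mod_cast hN3
      linarith
    have hsub : {a : Fin s → ℕ | (∀ i, b i < a i ∧ a i ≤ b i + H) ∧ Admissible a ∧ ¬ Good δ₀ N a} ⊆
        (((Fintype.piFinset (fun i : Fin s => Finset.Ioc (b i) (b i + H))).filter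
          (fun a => ¬ Pool.Agent.Helper269.SB24.Holds c (U + 2 * (s + 1)) B N a) : Finset _) : Set _) := by
      rintro a ⟨ha1, ha2, ha3⟩
      rw [Finset.mem_coe, Finset.mem_filter, Fintype.mem_piFinset]
      refine ⟨fun i => Finset.mem_Ioc.2 (ha1 i), fun hH' => ha3 ?_⟩
      have h4 := h2 N (((le_max_right _ _).trans (le_max_left _ _)).trans hN) a (fun i => by
        have h5 := ha1 i
        have h6 := hb i
        have h7 : (C + 1) * N = C * N + N := by ring
        exact ⟨by omega, by omega⟩) ha2 hH'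
      unfold Good
      have hfin : (Primes a N).Finite := (Set.finite_Iic N).subset fun n hn => hn.2.1
      have h5 : Pool.Agent.Helper269.SB24.count a 1 0 N ≤ ⌊(N : ℝ) ^ (1 / 4 : ℝ)⌋₊ + (Primes a N).ncard := by
        rw [Set.ncard_eq_toFinset_card _ hfin]
        unfold Pool.Agent.Helper269.SB24.count
        have h6 : (Finset.Icc 1 N).filter (fun n => n % 1 = 0 ∧ ∀ i, (n + a i).Prime) ⊆
            Finset.Icc 1 ⌊(N : ℝ) ^ (1 / 4 : ℝ)⌋₊ ∪ hfin.toFinset := by
          intro n hn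
          rw [Finset.mem_filter, Finset.mem_Icc] at hn
          rw [Finset.mem_union, Finset.mem_Icc, Set.Finite.mem_toFinset]
          by_cases h6 : n ≤ ⌊(N : ℝ) ^ (1 / 4 : ℝ)⌋₊
          · exact Or.inl ⟨hn.1.1, h6⟩
          · exact Or.inr ⟨Nat.lt_of_floor_lt (by omega), hn.1.2, hn.2.2⟩
        have h7 := (Finset.card_le_card h6).trans (Finset.card_union_le _ _)
        rwa [Nat.card_Icc, Nat.add_sub_cancel] at h7
      have h6 : ((⌊(N : ℝ) ^ (1 / 4 : ℝ)⌋₊ : ℕ) : ℝ) ≤ (N : ℝ) ^ (1 / 4 : ℝ) := Nat.floor_le (by positivity)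
      have h7 : (Pool.Agent.Helper269.SB24.count a 1 0 N : ℝ) ≤
          ((⌊(N : ℝ) ^ (1 / 4 : ℝ)⌋₊ : ℕ) : ℝ) + (Primes a N).ncard := by exact_mod_cast h5
      have h8 : δ₀ * expected (classes a) N + (N : ℝ) ^ (1 / 4 : ℝ) ≤ Pool.Agent.Helper269.SB24.count a 1 0 N := h4
      linarith
    have h4 := Set.ncard_le_ncard hsub (Finset.finite_toSet _)
    rw [Set.ncard_coe_finset] at h4
    refine (Nat.cast_le.2 h4).trans ?_
    have h5 : (H : ℝ) ^ s / (Real.log N) ^ (U + 2 * (s + 1)) ≤ (H : ℝ) ^ s / Real.log N ^ U := by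
      apply div_le_div_of_nonneg_left (by positivity) (by positivity)
      exact pow_le_pow_right₀ hl1 (by omega)
    refine le_trans (le_trans (le_of_eq ?_) h3) h5
    congr
  · obtain ⟨c', hc', B, X₁, h⟩ := Pool.Agent.Helper269.uni_common (g := s) M m k s (1 / 4) (δ * δ₀) (by norm_num)
      (by norm_num) (by positivity)
    refine ⟨c', hc', B, max X₁ 1, fun N D hN hBD hDN a ha S hS hSc => ?_⟩
    have h3 := h N D ((le_max_left _ _).trans hN) hBD hDN (fun j => F (a j)) (fun j => R (a j))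
      (fun j => deg (a j)) (fun j => nf (a j) (adm (a j) (ha j).1)) (fun j => hR (a j)) (fun _ => 0) S (fun j n hn => by
        obtain ⟨h4, h5, -⟩ := hS j hn
        have h6 : (0 : ℝ) ≤ (N : ℝ) ^ (1 / 4 : ℝ) := by positivity
        exact ⟨by exact_mod_cast (lt_of_le_of_lt h6 h4), by omega⟩) (fun j n hn q hq hd => by
        obtain ⟨h4, h5, h6⟩ := hS j hn
        obtain ⟨i, hd⟩ := hd
        rw [(Nat.prime_dvd_prime_iff_eq hq (h6 i)).1 hd]
        refine lt_of_lt_of_le h4 ?_
        exact_mod_cast Nat.le_add_right n (a j i)) (fun j => by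
        rw [← expected_eq]
        obtain ⟨h4, h5⟩ := ha j
        calc δ * δ₀ * expected (classes (a j)) N = δ * (δ₀ * expected (classes (a j)) N) := by ring
          _ ≤ δ * ((Primes (a j) N).ncard : ℝ) := mul_le_mul_of_nonneg_left h5 hδ.le
          _ ≤ _ := hSc j)
    exact h3

end Pool.Agent.Results.MP_68a45e_nt.PatternsShortBoxes
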