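import Pool.Agent.helper616_TN.Main1

/-!
# The Hardy–Littlewood formula for the values of almost every real polynomial

For almost every real polynomial `f` of degree `m` with positive leading coefficient the formula for the number of the
`n < N` for which `⌊f(n + h_1)⌋, …, ⌊f(n + h_k)⌋` are all prime, `9 k < 2 m + 6`, holds with any power of the logarithm
saved and uniformly for distinct shifts up to any power of `log N`.

Proof: the second moment over the coefficients of `f`. For `n` and `n'` which are not too close the coefficients can be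
moved in a direction in which only one of the values `f(n + h_i)`, `f(n' + h_i)` changes (Lagrange interpolation), and
the primes in almost all intervals of length `x ^ (1 / 3 + ε)` are used for this one. A union bound over the shifts.
-/

set_option autoImplicit false

open Filter Topology MeasureTheory

namespace Pool.Agent.Results.MP_68a45e_nt.RandomPolynomialTuples

/-- The value at `x` of the polynomial with the coefficients `a 0, …, a m`. -/
noncomputable def value {m : ℕ} (a : Fin (m + 1) → ℝ) (x : ℕ) : ℝ := ∑ k, a k * (x : ℝ) ^ (k : ℕ)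

/-- `log n` if `n` is prime, and `0` otherwise. -/
noncomputable def logPrime (n : ℕ) : ℝ := if n.Prime then Real.log n else 0

/-- Let `1 ≤ k` and `9 k < 2 m + 6`. For almost all polynomials `f` of degree `m` with positive leading coefficient and
for all `E` and `A`, `∑_{n < N} ∏_i logPrime ⌊f(n + h_i)⌋ = N + O(N / (log N) ^ A)` uniformly for distinct
`h_1, …, h_k ≤ (log N) ^ E`. -/
theorem result (m k : ℕ) (hk : 1 ≤ k) (hmk : 9 * k < 2 * m + 6) :
    ∀ᵐ a : Fin (m + 1) → ℝ, 0 < a (Fin.last m) → ∀ E A : ℕ, ∃ C : ℝ, ∀ N : ℕ, 2 ≤ N →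
      ∀ h : Fin k → ℕ, Function.Injective h → (∀ i, (h i : ℝ) ≤ (Real.log N) ^ E) →
        |∑ n ∈ Finset.range N, ∏ i, logPrime ⌊value a (n + h i)⌋₊ - N| ≤ C * N / (Real.log N) ^ A := by
  filter_upwards [Pool.Agent.helper616_TN.primes m k hk hmk] with a ha h0 E A
  obtain ⟨C, hC⟩ := ha h0 E A
  refine ⟨C, fun N hN h hi hs => ?_⟩
  have h1 := hC N hN h ⟨hi, hs⟩
  have e : ∑ n ∈ Finset.range N, ∏ i, logPrime ⌊value a (n + h i)⌋₊ - N =
      ∑ n ∈ Finset.range N, (Pool.Agent.helper616_TN.tupB (fun _ => Pool.Agent.helper616_RP.th) h n a - 1) := by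
    rw [Finset.sum_sub_distrib, Finset.sum_const, Finset.card_range, nsmul_eq_mul, mul_one]
    rfl
  rw [e]
  exact h1

end Pool.Agent.Results.MP_68a45e_nt.RandomPolynomialTuples
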