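import Pool.Agent.helper24_UT.Ch13
import Pool.Agent.helper24_UT.Pf

set_option autoImplicit false

/-!
# Prime tuples with shifts from thin families in windows of length `N ^ (1 / 3 + ε)`, in all progressions to large moduli

Let `k, p ≥ 1`, `ε > 0`, `A`, `C` be fixed and let `N` be large. For `i = 1, ..., k` let `s_i(1), ..., s_i(x_i)` be an
arbitrary family of integers in a window `(c_i, c_i + H_i]` with `c_i ≤ C N`, `N ^ (1 / 3 + ε) ≤ H_i ≤ N`, whose additive energy
of order `p` is, up to the factor `(log N) ^ C`, the smallest possible one `x_i ^ (2 p) / H_i`. Then for all but at most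
`∏ x_i / (log N) ^ A` of the vectors `(m_1, ..., m_k)`, `m_i ≤ x_i`, the number of the primes `n ≤ y`, `n ≡ r (mod q)`, for which
all `n + s_i(m_i)` are prime is given by the formula of Hardy and Littlewood up to an error whose squares, summed over ALL moduli
`q ≤ Q = N exp (- B (log log N) ^ 2)` and all residue classes which are not excluded, have the sum at most
`N ^ 2 / (log N) ^ A`; the length `y = y(q, r) ≤ N` may be chosen in every class as unfavourably as possible. This applies to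
the values of polynomials: `s_i = f_i` positive on the positive integers, `N ^ (1 / 3 + ε) ≤ x_i ^ deg f_i ≤ N`; e.g. to the shifts
`2 m ^ 2` with `m ≤ N ^ (1 / 6 + ε)`.

Proof. The correlations of the primes minus their sieve model along the families are bounded by the additive energy and by
the mean squares of short exponential sums over primes (`Pool.Agent.helper24_UT.Ch.t_MKT`, the method of Mikawa, windows
`H ≥ N ^ (1 / 3 + ε)`), for all twists with rational numbers of small denominators; the large sieve gives all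
classes to all moduli. The energy of polynomial values is from the starting files.
-/

namespace Pool.Agent.Results.MP_68a45e_nt.ThinFamiliesInShortWindows

open Finset Polynomial

variable {k : ℕ}

/-- the number `ν_p` of the distinct residue classes modulo `p` occupied by the `a_i` -/
def nu (a : Fin k → ℕ) (p : ℕ) : ℕ := (univ.image fun i => a i % p).card

/-- the factor of the singular series at the prime `p` -/
noncomputable def factor (a : Fin k → ℕ) (p : Nat.Primes) : ℝ :=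
  (1 - (nu a p : ℝ) / ((p : ℕ) : ℝ)) / (1 - 1 / ((p : ℕ) : ℝ)) ^ k

/-- the singular series `𝔖(a_1, …, a_k)` -/
noncomputable def series (a : Fin k → ℕ) : ℝ := ∏' p : Nat.Primes, factor a p

/-- the number of the `1 ≤ n ≤ y` with `n ≡ r (mod q)` for which all `n + a_i` are prime (for `r < q`) -/
def count (a : Fin k → ℕ) (q r y : ℕ) : ℕ :=
  ((Icc 1 y).filter (fun n => n % q = r ∧ ∀ i, (n + a i).Prime)).card

/-- `∑_{n ≤ y} ∏_i 1 / log (n + a_i)` -/
noncomputable def logSum (a : Fin k → ℕ) (y : ℕ) : ℝ := ∑ n ∈ Icc 1 y, ∏ i, 1 / Real.log ((n + a i : ℕ) : ℝ)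

/-- the residues `r` modulo `q` for which all `r + a_i` are coprime to `q` -/
def residues (a : Fin k → ℕ) (q : ℕ) : Finset ℕ := (range q).filter (fun r => ∀ i, (r + a i).Coprime q)

/-- The `a_i` are distinct, the singular series converges, it is at least `c` if there is no local obstruction, and for all
`Q ≤ N exp (- B (log log N) ^ 2)` and all choices of the lengths `y q r ≤ N` the sum, over all `q ≤ Q` and all residues `r` of
`residues a q`, of the squares of `count - (𝔖 / φ_a(q)) logSum` is at most `N ^ 2 / (log N) ^ A`. -/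
def Holds (c : ℝ) (A B N : ℕ) (a : Fin k → ℕ) : Prop :=
  Function.Injective a ∧ Multipliable (factor a) ∧ ((∀ p : ℕ, p.Prime → nu a p < p) → c ≤ series a) ∧
    ∀ Q : ℕ, (Q : ℝ) ≤ N * Real.exp (-(B * Real.log (Real.log N) ^ 2)) → ∀ y : ℕ → ℕ → ℕ, (∀ q r, y q r ≤ N) →
      ∑ q ∈ Icc 1 Q, ∑ r ∈ residues a q,
        ((count a q r (y q r) : ℝ) - series a / (residues a q).card * logSum a (y q r)) ^ 2 ≤ (N : ℝ) ^ 2 / (Real.log N) ^ A

/-- The additive energy of order `p` of the family `s 1, ..., s x`: the number of the solutions of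
`s (v 1) + ... + s (v p) = s (w 1) + ... + s (w p)` with all `v i`, `w i` in `{1, ..., x}`. -/
def energy (p x : ℕ) (s : ℕ → ℤ) : ℕ :=
  (((Fintype.piFinset fun _ : Fin p => Icc 1 x) ×ˢ (Fintype.piFinset fun _ : Fin p => Icc 1 x)).filter
    (fun q => ∑ i, s (q.1 i) = ∑ i, s (q.2 i))).card

open Classical in
/-- The number of the vectors `m`, `1 ≤ m i ≤ x i`, for which `Holds` fails for the tuple `(0, s 1 (m 1), ..., s k (m k))`. -/
noncomputable def exceptions (c : ℝ) (A B N : ℕ) (x : Fin k → ℕ) (s : Fin k → ℕ → ℕ) : ℕ :=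
  ((Fintype.piFinset (fun i => Icc 1 (x i))).filter
    (fun m => ¬ Holds c A B N (Fin.cons 0 (fun i => s i (m i)) : Fin (k + 1) → ℕ))).card

theorem nu_eq (a : Fin k → ℕ) (p : ℕ) (hp : 1 ≤ p) :
    Pool.Agent.helper24_UT.nuf (fun _ => 1) (fun i => (a i : ℤ)) p = nu a p := by
  classical
  unfold Pool.Agent.helper24_UT.nuf nu
  have hp0 : (0 : ℤ) < (p : ℤ) := by exact_mod_cast hp
  have hset : ((range p).filter (fun t : ℕ => ∃ i, (p : ℤ) ∣ (1 : ℤ) * t + a i)) =
      (univ.image fun i => a i % p).image (fun x => (p - x) % p) := by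
    ext t
    rw [mem_filter, mem_range, mem_image]
    constructor
    · rintro ⟨ht, i, hi⟩
      refine ⟨a i % p, mem_image_of_mem _ (mem_univ i), ?_⟩
      have h1 : p ∣ t + a i := by
        have h2 : (p : ℤ) ∣ ((t + a i : ℕ) : ℤ) := by push_cast; rw [one_mul] at hi; exact hi
        exact_mod_cast h2
      have h3 : p ∣ t + a i % p := by
        have h4 : t + a i = (t + a i % p) + p * (a i / p) := by
          have := Nat.mod_add_div (a i) p
          omega
        rw [h4] at h1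
        exact (Nat.dvd_add_left (Dvd.intro _ rfl)).1 h1
      have h5 : a i % p < p := Nat.mod_lt _ hp
      obtain ⟨c, hc⟩ := h3
      have hc2 : c < 2 := by
        by_contra hcon
        have : p * 2 ≤ p * c := Nat.mul_le_mul_left _ (by omega)
        omega
      interval_cases c
      · have : a i % p = 0 := by omega
        rw [this, Nat.sub_zero, Nat.mod_self]
        omega
      · have : p - a i % p = t := by omega
        rw [this, Nat.mod_eq_of_lt ht]
    · rintro ⟨x, hx, rfl⟩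
      rw [mem_image] at hx
      obtain ⟨i, _, rfl⟩ := hx
      have h5 : a i % p < p := Nat.mod_lt _ hp
      refine ⟨Nat.mod_lt _ hp, i, ?_⟩
      rw [one_mul]
      have h1 : (((p - a i % p) % p : ℕ) : ℤ) + a i = ((((p - a i % p) % p + a i : ℕ)) : ℤ) := by push_cast; ring
      rw [h1]
      have h2 : p ∣ (p - a i % p) % p + a i := by
        have h3 : ((p - a i % p) % p + a i) % p = 0 := by
          rw [Nat.mod_add_mod]
          have h4 : p - a i % p + a i = p + p * (a i / p) := by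
            have := Nat.mod_add_div (a i) p
            omega
          rw [h4, Nat.add_mul_mod_self_left, Nat.mod_self]
        exact Nat.dvd_of_mod_eq_zero h3
      exact_mod_cast h2
  have hcard : ((univ.image fun i => a i % p).image (fun x => (p - x) % p)).card = (univ.image fun i => a i % p).card := by
    apply card_image_of_injOn
    intro x hx y hy hxy
    rw [mem_coe, mem_image] at hx hy
    obtain ⟨i, _, rfl⟩ := hx
    obtain ⟨j, _, rfl⟩ := hy
    have h5 : a i % p < p := Nat.mod_lt _ hp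
    have h6 : a j % p < p := Nat.mod_lt _ hp
    have hxy' : (p - a i % p) % p = (p - a j % p) % p := hxy
    generalize a i % p = u at *
    generalize a j % p = v at *
    rcases Nat.eq_zero_or_pos u with h7 | h7 <;> rcases Nat.eq_zero_or_pos v with h8 | h8
    · rw [h7, h8]
    · rw [h7, Nat.sub_zero, Nat.mod_self, Nat.mod_eq_of_lt (by omega)] at hxy'
      omega
    · rw [h8, Nat.sub_zero, Nat.mod_self, Nat.mod_eq_of_lt (by omega)] at hxy'
      omega
    · rw [Nat.mod_eq_of_lt (by omega), Nat.mod_eq_of_lt (by omega)] at hxy'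
      omega
  rw [← hcard, ← hset]

theorem series_eq (a : Fin k → ℕ) :
    Pool.Agent.helper24_UT.sers (fun _ => 1) (fun i => (a i : ℤ)) = series a := by
  unfold Pool.Agent.helper24_UT.sers series factor
  congr 1
  funext p
  rw [nu_eq a p p.2.one_le]

theorem count_eq (a : Fin k → ℕ) (q r y : ℕ) : Pool.Agent.helper24_UT.cntT a q r y = count a q r y := by
  classical
  unfold Pool.Agent.helper24_UT.cntT count
  congr 1

theorem phi_eq (a : Fin k → ℕ) (q : ℕ) :
    Pool.Agent.helper24_UT.phf (fun _ => 1) (fun i => (a i : ℤ)) q = (residues a q).card := by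
  classical
  unfold Pool.Agent.helper24_UT.phf residues
  congr 1
  apply filter_congr
  intro t _
  apply forall_congr'
  intro i
  rw [one_mul]
  have h : ((t : ℤ) + (a i : ℤ)) = ((t + a i : ℕ) : ℤ) := by push_cast; ring
  rw [h, Int.gcd_natCast_natCast]

open Classical in
/-- the main theorem -/
theorem general (k : ℕ) (c : ℝ) (hS : ∀ σ h : Fin (k + 1) → ℤ, (∀ i, σ i = 1 ∨ σ i = -1) →
    (∀ i j, i ≠ j → σ i * h j ≠ σ j * h i) →
    Multipliable (fun p : Nat.Primes => (1 - (Pool.Agent.helper24_UT.nuf σ h p : ℝ) / ((p : ℕ) : ℝ)) /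
      (1 - 1 / ((p : ℕ) : ℝ)) ^ (k + 1)) ∧
    ((∀ p : ℕ, p.Prime → Pool.Agent.helper24_UT.nuf σ h p < p) → c ≤ Pool.Agent.helper24_UT.sers σ h)) (hk : 1 ≤ k)
    (p A B' C : ℕ) (ε : ℝ) (hp : 1 ≤ p) (hε : 0 < ε) : ∃ B N₀ : ℕ, ∀ N : ℕ, N₀ ≤ N →
    ∀ (H x c₀ : Fin k → ℕ) (s : Fin k → ℕ → ℕ), (∀ i, (N : ℝ) ^ (1 / 3 + ε) ≤ H i ∧ H i ≤ N) → (∀ i, c₀ i ≤ B' * N) →
    (∀ i, ∀ m ∈ Icc 1 (x i), c₀ i < s i m ∧ s i m ≤ c₀ i + H i) →
    (∀ i, (energy p (x i) (fun m => (s i m : ℤ)) : ℝ) * H i ≤ Real.log N ^ C * (x i : ℝ) ^ (2 * p)) →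
    (exceptions c A B N x s : ℝ) ≤ (∏ i, (x i : ℝ)) / Real.log N ^ A := by
  obtain ⟨e, he⟩ := exists_nat_gt (1 / ε)
  have he0 : (0 : ℝ) < e := lt_trans (by positivity) he
  have he1 : 1 ≤ e := by exact_mod_cast he0
  have hle : 1 / (e : ℝ) ≤ ε := by
    rw [div_le_iff₀ he0]
    rw [div_lt_iff₀ hε] at he
    linarith
  obtain ⟨B, N₀, h⟩ := Pool.Agent.helper24_UT.Ch.t_R19 k p e A B' C hk hp he1
  refine ⟨B, N₀ + 1, fun N hN H x c₀ s hH hc hs hE => ?_⟩
  have hN1 : (1 : ℝ) ≤ N := by exact_mod_cast (by omega : 1 ≤ N)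
  have key := h N (by omega) H x c₀ s (fun i => ⟨(Real.rpow_le_rpow_of_exponent_le hN1 (by linarith)).trans (hH i).1, (hH i).2⟩)
    hc (fun i => ⟨fun m hm => by
      obtain ⟨h1, h2⟩ := hs i m hm
      refine ⟨?_, ?_⟩
      · change (c₀ i : ℤ) < ((s i m : ℕ) : ℤ)
        exact_mod_cast h1
      · change ((s i m : ℕ) : ℤ) ≤ (c₀ i : ℤ) + ((H i : ℕ) : ℤ)
        exact_mod_cast h2, hE i⟩)
  refine le_trans ?_ key
  unfold exceptions
  refine Nat.cast_le.2 (card_le_card fun m hm => ?_)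
  have hm := mem_filter.1 hm
  refine mem_filter.2 ⟨hm.1, fun hg => hm.2 ?_⟩
  generalize (Fin.cons 0 (fun i => s i (m i)) : Fin (k + 1) → ℕ) = a at *
  obtain ⟨hinj, hg⟩ := hg
  have hne : ∀ i j : Fin (k + 1), i ≠ j → (1 : ℤ) * (a j : ℤ) ≠ 1 * (a i : ℤ) := by
    intro i j hij heq
    rw [one_mul, one_mul] at heq
    exact hij (hinj (by exact_mod_cast heq.symm))
  obtain ⟨hm', hl⟩ := hS (fun _ => 1) (fun i => (a i : ℤ)) (fun _ => Or.inl rfl) hne
  refine ⟨hinj, ?_, ?_, ?_⟩
  · convert hm' using 2 with p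
    unfold factor
    rw [nu_eq a p p.2.one_le]
  · intro hp
    rw [← series_eq]
    apply hl
    intro p hp'
    rw [nu_eq a p hp'.one_le]
    exact hp p hp'
  · intro Q hQ y hy
    have h3 := hg Q hQ y hy
    rw [series_eq] at h3
    simp only [phi_eq, count_eq] at h3
    exact h3

/-- Let `k ≥ 1`. There is a `c > 0` with the following property. Let `ε > 0`, `A`, `B'`, `C` be fixed.

* Let `p ≥ 1`. There is a `B` such that for all large `N` and all families `s i 1, ..., s i (x i)` (`i = 1, ..., k`) of integers in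
  windows `(c₀ i, c₀ i + H i]`, `c₀ i ≤ B' N`, `N ^ (1 / 3 + ε) ≤ H i ≤ N`, with additive energies of order `p` at most
  `(log N) ^ C (x i) ^ (2 p) / H i`: for all but at most `∏ x i / (log N) ^ A` of the vectors `m`, `1 ≤ m i ≤ x i`, `Holds` is true for
  the tuple `(0, s 1 (m 1), ..., s k (m k))`.
* Let `f` be a nonconstant polynomial with integer coefficients, positive at all positive integers. There is a `B`
  such that for all large `N` the same is true for the shifts `f (m 1), ..., f (m k)`, if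
  `N ^ (1 / 3 + ε) ≤ (x i) ^ deg f ≤ N` for all `i`. -/
theorem result (k : ℕ) (hk : 1 ≤ k) : ∃ c : ℝ, 0 < c ∧ ∀ (ε : ℝ) (A B' C : ℕ), 0 < ε →
    (∀ p : ℕ, 1 ≤ p → ∃ B N₀ : ℕ, ∀ N : ℕ, N₀ ≤ N →
      ∀ (H x c₀ : Fin k → ℕ) (s : Fin k → ℕ → ℕ), (∀ i, (N : ℝ) ^ (1 / 3 + ε) ≤ H i ∧ H i ≤ N) → (∀ i, c₀ i ≤ B' * N) →
      (∀ i, ∀ m ∈ Icc 1 (x i), c₀ i < s i m ∧ s i m ≤ c₀ i + H i) →
      (∀ i, (energy p (x i) (fun m => (s i m : ℤ)) : ℝ) * H i ≤ Real.log N ^ C * (x i : ℝ) ^ (2 * p)) →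
      (exceptions c A B N x s : ℝ) ≤ (∏ i, (x i : ℝ)) / Real.log N ^ A) ∧
    (∀ f : ℤ[X], 1 ≤ f.natDegree → (∀ m : ℕ, 1 ≤ m → 0 < f.eval (m : ℤ)) →
      ∃ B N₀ : ℕ, ∀ N : ℕ, N₀ ≤ N → ∀ x : Fin k → ℕ,
      (∀ i, (N : ℝ) ^ (1 / 3 + ε) ≤ (x i : ℝ) ^ f.natDegree ∧ (x i) ^ f.natDegree ≤ N) →
      (exceptions c A B N x (fun _ m => (f.eval (m : ℤ)).toNat) : ℝ) ≤ (∏ i, (x i : ℝ)) / Real.log N ^ A) := by
  classical
  obtain ⟨c, hc, hS⟩ := Pool.Agent.helper24_UT.Slb.main (k + 1)
  refine ⟨c, hc, fun ε A B' C hε => ⟨fun p hp => general k c hS hk p A B' C ε hp hε, fun f hd hpos => ?_⟩⟩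
  obtain ⟨p, D, N₁, hp, hD, hfam⟩ := Pool.Agent.helper24_UT.Pf.poly_fam f hd
  obtain ⟨B, N₂, h⟩ := general k c hS hk p (A + 2) 0 1 (ε / 2) hp (by positivity)
  obtain ⟨N₃, hsc⟩ := Pool.Agent.helper24_UT.Pf.scale (2 * D) (by omega) ε hε B
  refine ⟨4 * B, max (max N₁ N₂) N₃, fun N hN x hx => ?_⟩
  obtain ⟨g1, g2, g3, g4, g5, g6, g7⟩ := hsc N ((le_max_right _ _).trans hN)
  have hNN : N ≤ 2 * D * N := Nat.le_mul_of_pos_left N (by omega)
  have hN0 : (0 : ℝ) < N := by exact_mod_cast (by omega : 0 < N)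
  have hD' : (1 : ℝ) ≤ D := by exact_mod_cast hD
  have hN1' : N₁ ≤ 2 * D * N := ((le_max_left _ _).trans ((le_max_left _ _).trans hN)).trans hNN
  have hN2' : N₂ ≤ 2 * D * N := ((le_max_right _ _).trans ((le_max_left _ _).trans hN)).trans hNN
  have hx1 : ∀ i, 1 ≤ x i := by
    intro i
    by_contra hcon
    have h0 : x i = 0 := by omega
    have h1 := (hx i).1
    rw [h0, Nat.cast_zero, zero_pow (by omega)] at h1
    have : (0 : ℝ) < (N : ℝ) ^ (1 / 3 + ε) := by positivity
    linarith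
  have hcast : ∀ i : Fin k, ∀ m ∈ Icc 1 (x i), (((f.eval (m : ℤ)).toNat : ℕ) : ℤ) = f.eval (m : ℤ) := by
    intro i m hm
    exact Int.toNat_of_nonneg (hpos m (mem_Icc.1 hm).1).le
  have hen : ∀ i : Fin k, energy p (x i) (fun m => (((f.eval (m : ℤ)).toNat : ℕ) : ℤ)) =
      energy p (x i) (fun m => 0 + f.eval (m : ℤ)) := by
    intro i
    unfold energy
    congr 1
    apply filter_congr
    intro q hq
    rw [mem_product, Fintype.mem_piFinset, Fintype.mem_piFinset] at hq
    have e1 : ∑ j, (((f.eval (q.1 j : ℤ)).toNat : ℕ) : ℤ) = ∑ j, (0 + f.eval (q.1 j : ℤ)) :=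
      sum_congr rfl fun j _ => by rw [hcast i _ (hq.1 j), zero_add]
    have e2 : ∑ j, (((f.eval (q.2 j : ℤ)).toNat : ℕ) : ℤ) = ∑ j, (0 + f.eval (q.2 j : ℤ)) :=
      sum_congr rfl fun j _ => by rw [hcast i _ (hq.2 j), zero_add]
    rw [e1, e2]
  have key := h (2 * D * N) hN2' (fun i => 2 * D * (x i) ^ f.natDegree) x (fun _ => 0)
    (fun _ m => (f.eval (m : ℤ)).toNat) (fun i => ⟨by
      refine g6.trans ((hx i).1.trans ?_)
      push_cast
      have : (0 : ℝ) ≤ (x i : ℝ) ^ f.natDegree := by positivity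
      nlinarith, Nat.mul_le_mul_left _ (hx i).2⟩) (fun _ => Nat.zero_le _) (fun i m hm => by
      have hF := (hfam (2 * D * N) hN1' (x i) (hx1 i) 0).1 m hm
      have hp1 := hpos m (mem_Icc.1 hm).1
      have hF2 : 0 + f.eval (m : ℤ) ≤ 0 - (D : ℤ) * ((x i : ℕ) : ℤ) ^ f.natDegree + ((2 * D * x i ^ f.natDegree : ℕ) : ℤ) := hF.2
      have hc := hcast i m hm
      push_cast at hF2
      have hx0 : (0 : ℤ) ≤ (D : ℤ) * (x i : ℤ) ^ f.natDegree := by positivity
      constructor
      · have : (0 : ℤ) < (((f.eval (m : ℤ)).toNat : ℕ) : ℤ) := by rw [hc]; exact hp1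
        exact_mod_cast this
      · have : (((f.eval (m : ℤ)).toNat : ℕ) : ℤ) ≤ ((0 + 2 * D * x i ^ f.natDegree : ℕ) : ℤ) := by
          rw [hc]
          push_cast
          linarith
        exact_mod_cast this) (fun i => by
      have hF := (hfam (2 * D * N) hN1' (x i) (hx1 i) 0).2
      rw [hen i]
      exact hF)
  have hprod : (0 : ℝ) ≤ ∏ i, (x i : ℝ) := prod_nonneg fun i _ => Nat.cast_nonneg _
  refine le_trans ?_ (key.trans ?_)
  · unfold exceptions
    refine Nat.cast_le.2 (card_le_card fun m hm => ?_)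
    have hm := mem_filter.1 hm
    refine mem_filter.2 ⟨hm.1, fun hg => hm.2 ?_⟩
    obtain ⟨k1, k2, k3, k4⟩ := hg
    refine ⟨k1, k2, k3, fun Q hQ y hy => (k4 Q (hQ.trans g7) y (fun q r => (hy q r).trans hNN)).trans ?_⟩
    have h7 : (((2 * D * N : ℕ) : ℝ)) = ((2 * D : ℕ) : ℝ) * N := by push_cast; ring
    have hlN : (0 : ℝ) < Real.log N := by linarith
    have hl' : (0 : ℝ) < Real.log ((2 * D * N : ℕ) : ℝ) := by linarith
    rw [div_le_div_iff₀ (by positivity) (by positivity)]
    calc (((2 * D * N : ℕ) : ℝ)) ^ 2 * Real.log N ^ A = (N : ℝ) ^ 2 * (((2 * D : ℕ) : ℝ) ^ 2 * Real.log N ^ A) := by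
          rw [h7]; ring
      _ ≤ (N : ℝ) ^ 2 * (Real.log N ^ 2 * Real.log N ^ A) := by
        apply mul_le_mul_of_nonneg_left _ (by positivity)
        apply mul_le_mul_of_nonneg_right _ (by positivity)
        exact pow_le_pow_left₀ (Nat.cast_nonneg _) g3 2
      _ = (N : ℝ) ^ 2 * Real.log N ^ (A + 2) := by ring
      _ ≤ (N : ℝ) ^ 2 * Real.log ((2 * D * N : ℕ) : ℝ) ^ (A + 2) := by
        apply mul_le_mul_of_nonneg_left _ (by positivity)
        exact pow_le_pow_left₀ hlN.le g4 _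
  · apply div_le_div_of_nonneg_left hprod (by positivity)
    calc Real.log N ^ A ≤ Real.log N ^ (A + 2) := pow_le_pow_right₀ g2 (by omega)
      _ ≤ _ := pow_le_pow_left₀ (by linarith) g4 _

end Pool.Agent.Results.MP_68a45e_nt.ThinFamiliesInShortWindows
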